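import Pool.Agent.H5.EG.Spec2

/-!
# EG-grow: growth of `W` near the unit circle (project EG of helper5, MP_98cfca_co)
-/

set_option autoImplicit false

namespace Pool.Agent.H935.EG

open PowerSeries Pool.Agent.H5.EG

theorem Rad.zero : Rad 0 := by
  intro ρ _ _
  simp

theorem Rad.pow {a : PowerSeries ℂ} (ha : Rad a) (N : ℕ) : Rad (a ^ N) := by
  induction N with
  | zero => rw [pow_zero]; exact Pool.Agent.H5.EG.Rad.one
  | succ N ih => rw [pow_succ]; exact Pool.Agent.H5.EG.Rad.mul ih ha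

theorem ev_pow {a : PowerSeries ℂ} (ha : Rad a) {x : ℂ} (hx : ‖x‖ < 1) (N : ℕ) :
    ev (a ^ N) x = ev a x ^ N := by
  induction N with
  | zero => rw [pow_zero, pow_zero, ev_one]
  | succ N ih => rw [pow_succ, ev_mul (Rad.pow ha N) ha hx, ih, pow_succ]

theorem ev_zero {x : ℂ} : ev 0 x = 0 := by
  unfold ev
  simp

theorem rad_sum (s : Finset ℕ) (c : ℕ → ℂ) (a : ℕ → PowerSeries ℂ) (ha : ∀ k, Rad (a k)) :
    Rad (∑ k ∈ s, PowerSeries.C (c k) * a k) := by
  classical
  induction s using Finset.induction_on with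
  | empty => rw [Finset.sum_empty]; exact Rad.zero
  | insert k s hk ih =>
    rw [Finset.sum_insert hk]
    exact Pool.Agent.H5.EG.Rad.add (Pool.Agent.H5.EG.Rad.C_mul (ha k) (c k)) ih

theorem ev_sum (s : Finset ℕ) (c : ℕ → ℂ) (a : ℕ → PowerSeries ℂ) (ha : ∀ k, Rad (a k))
    {x : ℂ} (hx : ‖x‖ < 1) :
    ev (∑ k ∈ s, PowerSeries.C (c k) * a k) x = ∑ k ∈ s, c k * ev (a k) x := by
  classical
  induction s using Finset.induction_on with
  | empty => rw [Finset.sum_empty, Finset.sum_empty, ev_zero]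
  | insert k s hk ih =>
    rw [Finset.sum_insert hk, Finset.sum_insert hk,
      ev_add (Pool.Agent.H5.EG.Rad.C_mul (ha k) (c k)) (rad_sum s c a ha) hx, ih, ev_C_mul]

/-- the coefficients of `V = (1 - x^r)/(1 + x^r)` are bounded by `2` -/
theorem V_coeff {r : ℕ} (hr : 1 ≤ r) {V : PowerSeries ℤ}
    (hV : V * (1 + PowerSeries.X ^ r) = 1 - PowerSeries.X ^ r) :
    PowerSeries.coeff 0 V = 1 ∧ ∀ n, |PowerSeries.coeff n V| ≤ 2 := by
  have h1 : ∀ n, PowerSeries.coeff n V + (if r ≤ n then PowerSeries.coeff (n - r) V else 0) =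
      (if n = 0 then 1 else 0) - (if n = r then 1 else 0) := by
    intro n
    have h := congrArg (PowerSeries.coeff n) hV
    rw [mul_add, mul_one, map_add, map_sub, PowerSeries.coeff_mul_X_pow', PowerSeries.coeff_one,
      PowerSeries.coeff_X_pow] at h
    exact h
  have h0 : PowerSeries.coeff 0 V = 1 := by
    have h := h1 0
    rw [if_neg (by omega), if_pos rfl, if_neg (by omega)] at h
    linarith
  refine ⟨h0, fun n => ?_⟩
  induction n using Nat.strong_induction_on with
  | _ n ih =>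
    rcases Nat.eq_zero_or_pos n with hn | hn
    · subst hn
      rw [h0]; norm_num
    · have h := h1 n
      rw [if_neg (by omega : ¬ n = 0)] at h
      rcases lt_trichotomy n r with hnr | hnr | hnr
      · rw [if_neg (by omega), if_neg (by omega)] at h
        have h2 : PowerSeries.coeff n V = 0 := by linarith
        rw [h2]; norm_num
      · subst hnr
        rw [if_pos le_rfl, if_pos rfl, Nat.sub_self, h0] at h
        have h2 : PowerSeries.coeff n V = -2 := by linarith
        rw [h2]; norm_num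
      · rw [if_pos hnr.le, if_neg (by omega)] at h
        have h2 : PowerSeries.coeff n V = - PowerSeries.coeff (n - r) V := by linarith
        rw [h2, abs_neg]
        exact ih (n - r) (by omega)

theorem rad_of_bd {h : PowerSeries ℂ} {K : ℝ} (hh : ∀ n, ‖PowerSeries.coeff n h‖ ≤ K) : Rad h := by
  intro ρ h0 h1
  refine Summable.of_nonneg_of_le (fun n => by positivity) (fun n => ?_)
    ((summable_geometric_of_lt_one h0 h1).mul_left K)
  gcongr
  exact hh n

theorem ev_of_bd {h : PowerSeries ℂ} {K : ℝ} (hh : ∀ n, ‖PowerSeries.coeff n h‖ ≤ K) {x : ℂ}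
    (hx : ‖x‖ < 1) : ‖ev h x‖ ≤ K * (1 - ‖x‖)⁻¹ := by
  have h1 := ev_summable (rad_of_bd hh) hx
  unfold ev
  refine (norm_tsum_le_tsum_norm h1).trans ?_
  rw [← tsum_geometric_of_lt_one (norm_nonneg x) hx, ← tsum_mul_left]
  refine Summable.tsum_le_tsum (fun n => ?_) h1
    ((summable_geometric_of_lt_one (norm_nonneg x) hx).mul_left K)
  rw [norm_mul, norm_pow]
  gcongr
  exact hh n

theorem grow : S_grow := by
  intro m
  refine ⟨2 * m ^ 2, fun r V W hr hW => ?_⟩
  obtain ⟨hV, hE⟩ := hW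
  obtain ⟨hV0, hVb⟩ := V_coeff hr hV
  have hV0' : PowerSeries.constantCoeff V = 1 := by
    rw [← PowerSeries.coeff_zero_eq_constantCoeff_apply]; exact hV0
  have hbd : ∀ n, ‖PowerSeries.coeff n (toC V)‖ ≤ 2 := by
    intro n
    rw [coeff_toC, Complex.norm_intCast]
    exact_mod_cast hVb n
  have hRV : Rad (toC V) := rad_of_bd hbd
  have hEC : PowerSeries.C ((2 : ℂ) ^ m) * toC W =
      ∑ k ∈ Finset.range (m + 1), PowerSeries.C ((m.choose k : ℕ) : ℂ) *
        (toC V) ^ (r * (k * (m - k))) := by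
    have h := congrArg toC hE
    unfold toC at h ⊢
    rw [map_mul, map_pow, map_ofNat, map_sum] at h
    rw [map_pow, map_ofNat, h]
    refine Finset.sum_congr rfl fun k _ => ?_
    rw [map_mul, map_natCast, map_natCast, map_pow]
  have h2 : ((2 : ℂ) ^ m) ≠ 0 := pow_ne_zero _ two_ne_zero
  have hRk : ∀ k, Rad ((toC V) ^ (r * (k * (m - k)))) := fun k => Rad.pow hRV _
  refine ⟨?_, ?_, ?_⟩
  · have h := congrArg PowerSeries.constantCoeff hE
    rw [map_mul, map_pow, map_ofNat, map_sum] at h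
    have h3 : ∑ k ∈ Finset.range (m + 1), PowerSeries.constantCoeff
        ((m.choose k : PowerSeries ℤ) * V ^ (r * (k * (m - k)))) = 2 ^ m := by
      have h4 : ∀ k ∈ Finset.range (m + 1), PowerSeries.constantCoeff
        ((m.choose k : PowerSeries ℤ) * V ^ (r * (k * (m - k)))) = (m.choose k : ℤ) := by
        intro k _
        rw [map_mul, map_natCast, map_pow, hV0', one_pow, mul_one]
      rw [Finset.sum_congr rfl h4]
      exact_mod_cast Nat.sum_range_choose m
    rw [h3] at h
    have h5 : (2 : ℤ) ^ m ≠ 0 := pow_ne_zero _ two_ne_zero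
    exact mul_left_cancel₀ h5 (by rw [h, mul_one])
  · have h3 : toC W = PowerSeries.C (((2 : ℂ) ^ m)⁻¹) * (PowerSeries.C ((2 : ℂ) ^ m) * toC W) := by
      rw [← mul_assoc, ← map_mul, inv_mul_cancel₀ h2, map_one, one_mul]
    rw [h3]
    refine Pool.Agent.H5.EG.Rad.C_mul ?_ _
    rw [hEC]
    exact rad_sum _ _ _ hRk
  · intro S hS x hx
    have hS0 : 0 < S := by linarith
    have hx1 : ‖x‖ < 1 := by
      have : 0 < 1 / S := by positivity
      linarith
    have hev := ev_of_bd hbd hx1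
    have hb : ‖ev (toC V) x‖ ≤ 2 * S := by
      refine hev.trans ?_
      gcongr
      rw [inv_le_comm₀ (by linarith) hS0]
      rw [one_div] at hx
      linarith
    have hev2 : (2 : ℂ) ^ m * ev (toC W) x = ∑ k ∈ Finset.range (m + 1), ((m.choose k : ℕ) : ℂ) *
        ev (toC V) x ^ (r * (k * (m - k))) := by
      rw [← ev_C_mul, hEC, ev_sum _ _ _ hRk hx1]
      refine Finset.sum_congr rfl fun k _ => ?_
      rw [ev_pow hRV hx1]
    have h2S : 1 ≤ 2 * S := by linarith
    have hterm : ∀ k ∈ Finset.range (m + 1), ‖((m.choose k : ℕ) : ℂ) *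
        ev (toC V) x ^ (r * (k * (m - k)))‖ ≤ (m.choose k : ℝ) * (2 * S) ^ (r * m ^ 2) := by
      intro k hk
      have hk' : k ≤ m := by
        have := Finset.mem_range.1 hk
        omega
      rw [norm_mul, Complex.norm_natCast, norm_pow]
      gcongr
      calc ‖ev (toC V) x‖ ^ (r * (k * (m - k))) ≤ (2 * S) ^ (r * (k * (m - k))) := by gcongr
        _ ≤ (2 * S) ^ (r * m ^ 2) := by
          refine pow_le_pow_right₀ h2S ?_
          rw [pow_two]
          exact Nat.mul_le_mul le_rfl (Nat.mul_le_mul hk' (Nat.sub_le _ _))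
    have hsum : ‖(2 : ℂ) ^ m * ev (toC W) x‖ ≤ 2 ^ m * (2 * S) ^ (r * m ^ 2) := by
      rw [hev2]
      refine (norm_sum_le _ _).trans ?_
      refine (Finset.sum_le_sum hterm).trans ?_
      rw [← Finset.sum_mul]
      have h4 : ∑ k ∈ Finset.range (m + 1), (m.choose k : ℝ) = 2 ^ m := by
        exact_mod_cast Nat.sum_range_choose m
      rw [h4]
    rw [norm_mul, norm_pow, Complex.norm_ofNat] at hsum
    have h5 : ‖ev (toC W) x‖ ≤ (2 * S) ^ (r * m ^ 2) :=
      le_of_mul_le_mul_left hsum (by positivity)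
    refine h5.trans ?_
    have h6 : 2 * S ≤ S ^ 2 := by nlinarith
    calc (2 * S) ^ (r * m ^ 2) ≤ (S ^ 2) ^ (r * m ^ 2) := by gcongr
      _ = S ^ (2 * m ^ 2 * r) := by rw [← pow_mul]; congr 1; ring

end Pool.Agent.H935.EG
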